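import Mathlib
import Pool.Agent.H617.WR.S
import Pool.Agent.H617.WR.U

set_option autoImplicit false

/-!
# Bilinear Hardy-Littlewood-Chowla sums: one Liouville shift in windows of length `(log N) ^ (k θ)`, `θ > 1 / 2`

The factors `Λ (n + a i)`, `i < k`, are held fixed (`a i ≤ N`, distinct, of bounded distances), one shift `B + h` of the
Liouville function moves in a window of length `H`, and all other factors (further shifts of the Liouville function, for
instance) are hidden in an arbitrary weight `b (n)` of modulus at most one; there is a second arbitrary weight `c (h)`.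
Let `W (n) = Λ (n + a 1) ⋯ Λ (n + a k)`. For every `θ` between `1 / 2` and `1` and all windows of length
`H ≥ (log N) ^ (k θ)` we save the factor `(1 - θ) / θ < 1` over the trivial bound
`(∑ n ≤ N, |b n| W n) * (∑ h ≤ H, |c h|)`, up to `ε H N`, with arbitrary and different ranges of `n` for the shifts.

No asymptotic formula (or lower bound) for the sum of `W` is used. The second part is the same inequality for all weights
`0 ≤ W ≤ (log z) ^ k` on the `n` for which `n + a 1, ..., n + a k` have no prime factor up to `z`, for every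
`z ≥ exp ((log log N) ^ K)`, with windows of length `(log z) ^ (k θ)`. For the weight `(log z) ^ k` itself the sum of the
`W n` is of order `N` for admissible tuples and `z = N ^ δ`, so that for every `k` the inequality is a nontrivial
statement about tuples of almost primes.

With `b` or `c` the indicator function of an exceptional set (times signs) these are statements about almost all shifts
and about almost all tuples. For all shifts `h ≤ H` but `ε H` the sum `∑ n ≤ X, b n W n λ(n + B + h)` is at most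
`(1 - θ) / θ * ∑ n ≤ N, |b n| W n + ε N` for all `X ≤ N`; and for `k = 1`, near almost all primes `p ≤ N` the Liouville
function has averages at most `(1 - θ) / θ + ε` on windows of length `(log N) ^ θ`, so takes both signs on a positive
proportion of the `p + h`, although these windows miss the primes on average.

The block estimate (a mean square estimate over the multiples of the primes of a dyadic block) and the averaged two
point theorem (Matomäki-Radziwiłł-Tao, uniform over real multiplicative functions) are those of the library files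
`E8helper16/SL`, `TH823/MRS` and `Helper82K9/EL`. New are: the use of the identity of Ramaré for the primes between
`(log z) ^ (k (1 - θ))` and `(log z) ^ (k θ)` (its weights are an average of multiplicative functions, for which the two
point theorem is available), and the second moment of the number of the shifts without a prime divisor in this set,
along arbitrary sets of tuples (comparison with the integers which are rough outside of the set of primes, pair counts by
the fundamental lemma).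
-/

namespace Pool.Agent.Results.MP_e6fa8b_nt.BilinearWindowsH617
open Finset
open Pool.Agent.H617.WK
open Pool.Agent.H617.WR
open Pool.Agent.E8helper16.SL
open Pool.Agent.H373R2.T7 (mem_pz)

/-- The bilinear inequality: for all complex `b n`, `c h` of modulus at most one and all `X h ≤ N`,
`|∑ h ≤ H, c h ∑ n ≤ X h, b n W n (-1) ^ Ω(n + B + h)| ≤ ρ * (∑ n ≤ N, |b n| W n) * (∑ h ≤ H, |c h|) + ε H N`. -/
def Bilinear (ρ ε : ℝ) (N H B : ℕ) (W : ℕ → ℝ) : Prop :=
  ∀ b c : ℕ → ℂ, (∀ n, ‖b n‖ ≤ 1) → (∀ h, ‖c h‖ ≤ 1) → ∀ X : ℕ → ℕ, (∀ h, X h ≤ N) →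
    ‖∑ h ∈ Icc 1 H, c h * ∑ n ∈ Icc 1 (X h), b n * (W n : ℂ) * (-1 : ℂ) ^ (ArithmeticFunction.cardFactors (n + B + h))‖ ≤
      ρ * (∑ n ∈ Icc 1 N, ‖b n‖ * W n) * (∑ h ∈ Icc 1 H, ‖c h‖) + ε * (H * N)

/-- **Theorem.** Let `k ≥ 1`, `D ≥ 0`, `1 / 2 < θ < 1` and `ε > 0`. There are `K` and `N₀` such that:
1. for all `N ≥ N₀`, `(log N) ^ (k θ) ≤ H ≤ N`, all distinct natural numbers `a 1, ..., a k ≤ N` with `|a i - a j| ≤ D`
and all `B ≤ N` the bilinear inequality with `ρ = (1 - θ) / θ` holds for `W n = Λ(n + a 1) ⋯ Λ(n + a k)`;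
2. for all `N₀ ≤ z ≤ N` with `log z ≥ (log log (3 N)) ^ K`, `(log z) ^ (k θ) ≤ H ≤ N`, all distinct integers
`a 1, ..., a k` with `|a i| ≤ N`, `|a i - a j| ≤ D` and all `B ≤ N` it holds for all `W` with `0 ≤ W n ≤ (log z) ^ k` for
which `W n ≠ 0` only if no prime `p ≤ z` divides `(n + a 1) ⋯ (n + a k)`. -/
theorem result (k : ℕ) (hk : 1 ≤ k) (D : ℕ) (θ : ℝ) (hθ : 1 / 2 < θ) (hθ' : θ < 1) (ε : ℝ) (hε : 0 < ε) :
    ∃ K N₀ : ℕ,
      (∀ N H : ℕ, N₀ ≤ N → Real.log N ^ ((k : ℝ) * θ) ≤ H → H ≤ N →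
        ∀ a : Fin k → ℕ, Function.Injective a → (∀ i, a i ≤ N) → (∀ i j, a i ≤ a j + D) → ∀ B : ℕ, B ≤ N →
        Bilinear ((1 - θ) / θ) ε N H B (fun n => ∏ i, ArithmeticFunction.vonMangoldt (n + a i))) ∧
      (∀ N z H : ℕ, N₀ ≤ z → z ≤ N → Real.log (Real.log (3 * N)) ^ K ≤ Real.log z → Real.log z ^ ((k : ℝ) * θ) ≤ H →
        H ≤ N → ∀ a : Fin k → ℤ, Function.Injective a → (∀ i, |a i| ≤ N) → (∀ i j, |a i - a j| ≤ D) → ∀ B : ℕ, B ≤ N →
        ∀ W : ℕ → ℝ, (∀ n, 0 ≤ W n ∧ W n ≤ Real.log z ^ k) →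
        (∀ n, W n ≠ 0 → ∀ i, ∀ p : ℕ, p.Prime → p ≤ z → ¬ (p : ℤ) ∣ n + a i) →
        Bilinear ((1 - θ) / θ) ε N H B W) := by
  obtain ⟨A₁, N₁, h1⟩ := bil k D hk θ hθ hθ' ε hε
  obtain ⟨N₂, h2⟩ := far_neg A₁
  obtain ⟨K, A₃, N₃, h3⟩ := bilw k D hk θ hθ hθ' ε hε
  obtain ⟨N₄, h4⟩ := far_neg A₃
  have hIoc : ∀ Y : ℕ, (Ioc 0 Y : Finset ℕ) = Icc 1 Y := by
    intro Y
    ext n
    rw [mem_Icc, mem_Ioc]
    omega
  have hlam : ∀ (W : ℕ → ℝ) (b c : ℕ → ℂ) (X : ℕ → ℕ) (H B : ℕ),
      ∑ h ∈ Icc 1 H, c h * ∑ n ∈ Icc 1 (X h), b n * (W n : ℂ) * (lamR (n + (B + h)) : ℂ) =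
      ∑ h ∈ Icc 1 H, c h * ∑ n ∈ Icc 1 (X h), b n * (W n : ℂ) * (-1 : ℂ) ^ (ArithmeticFunction.cardFactors (n + B + h)) := by
    intro W b c X H B
    apply sum_congr rfl
    intro h _
    congr 1
    apply sum_congr rfl
    intro n _
    unfold lamR
    rw [← add_assoc]
    push_cast
    rfl
  refine ⟨K, N₁ + N₂ + N₃ + N₄, fun N H hN hH1 hH2 a ha1 ha2 ha3 B hB b c hb hc X hX => ?_,
    fun N z H hz hzN hzK hH1 hH2 a ha1 ha2 ha3 B hB W hW1 hW2 b c hb hc X hX => ?_⟩
  · have g := h1 N (by omega) lamR lamR_rmul (h2 N (by omega) lamR (fun p hp => lamR_prime hp)) H hH1 a ha1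
      (fun i => (ha2 i).trans (by omega)) ha3 B (by omega) b c hb hc X hX
    simp only [hIoc] at g
    rw [hlam] at g
    have e2 : ∑ n ∈ Icc 1 N, ‖b n‖ * Lk a n = ∑ n ∈ Icc 1 N, ‖b n‖ * ∏ i, ArithmeticFunction.vonMangoldt (n + a i) := rfl
    rw [e2, ← mul_assoc] at g
    exact g
  · have hWt : Pool.Agent.H617.WN.Wt a z W := by
      refine ⟨fun n => (hW1 n).1, fun n => (hW1 n).2, fun n hn l hl i => ?_⟩
      rw [mem_pz] at hl
      exact hW2 n hn i l hl.2 hl.1
    have hs : Sep a D := fun i j hij => ⟨fun q => hij (ha1 q), ha3 i j⟩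
    have g := h3 N z (by omega) hzN (by
      rw [Nat.cast_mul]
      exact_mod_cast hzK) lamR lamR_rmul (h4 N (by omega) lamR (fun p hp => lamR_prime hp)) H hH1 a hs
      (fun i => (ha2 i).trans (by omega)) B (by omega) W hWt b c hb hc X hX
    simp only [hIoc] at g
    rw [hlam, ← mul_assoc] at g
    exact g

end Pool.Agent.Results.MP_e6fa8b_nt.BilinearWindowsH617
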