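import Mathlib
import Pool.Agent.H526.FD.A8
import Pool.Agent.H526.FD.B2

/-!
# Mixed correlations of the von Mangoldt and Liouville functions: prime shifts at the scale of the mean gap, Liouville shifts bounded

The theorem has two parts.

(1) The Hardy-Littlewood-Chowla statement on average. The shifts of the von Mangoldt functions run over windows
`(a i, a i + L]` at arbitrary places, one shift of the Liouville function over a window `(B, B + H]`, and `b s n` is an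
arbitrary weight of modulus at most one (for instance any product of Liouville functions at fixed or moving shifts, gap
conditions, ...). Almost all mixed correlations are small as soon as `L ≥ (log N) ^ (1 - η)` and `H ≥ A (1 + (log N) / L) ^ A`.
So for `L ≥ log N`, the mean gap of the primes, the Liouville shift moves in a window of bounded length, as in the theorem of
Matomäki and Radziwiłł; and for `L = H` windows shorter than the mean gap of the primes are enough. This holds for every number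
of factors.

(2) The Liouville function is independent of the exact constellation of the primes. `conf θ C N χ n` is the exact constellation
of those integers at distance at most `C log N` from `n` which are primes or have no prime factor `≤ N ^ θ`, each of them with
a colour `χ`. The Liouville function `λ(n) = (-1) ^ Ω(n)` is orthogonal to every function of this constellation and of the
residue class of `n` modulo `q`, times any character `ω ^ n` and any factor `Ψ` of total variation at most `δ N`, up to `ε N`,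
uniformly in all these data. The colours are arbitrary: colour `1` for the primes gives every function of the exact
constellation of the primes within `C log N` of `n`. As the total variation may be `δ N`, the function `Ψ` may change its value
arbitrarily at a positive proportion of the integers: the sums over almost all windows of a bounded length are small.

Method. By duality (1) is the bound `∑ s, ∑ n ≤ N, Λ(n + s 1) ⋯ Λ(n + s k) |∑ h ≤ H, c s h λ(n + h)| ≤ ε L ^ k H N` for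
arbitrary coefficients. The Liouville function is averaged over multiples of primes in the short window (Turán-Kubilius),
the von Mangoldt functions are replaced by sieve weights, and the covariances of the sieve weights along two tuples and two
multipliers are estimated on average over all pairs of tuples; for equal multipliers moments of the number of the rough
integers in windows of length `L` are used. What remains is an average of the Liouville function over short windows, treated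
with the theorem of Matomäki, Radziwiłł and Tao. For (2) the windows of length `≍ log N` around a short window are sorted by
the number and the exact positions of the rough integers in them.
-/

set_option autoImplicit false

namespace Pool.Agent.Results.MP_e6fa8b_nt.MeanGapScale

open Finset

open Classical in
/-- The first part. -/
theorem allShifts (k : ℕ) (hk : 1 ≤ k) (ε : ℝ) (hε : 0 < ε) : ∃ η : ℝ, 0 < η ∧ ∃ A N₀ : ℕ, ∀ N : ℕ, N₀ ≤ N →
    ∀ L H : ℕ, L ≤ N → H ≤ N → Real.log N ^ (1 - η) ≤ L → (A : ℝ) * (1 + Real.log N / L) ^ A ≤ H →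
      ∀ (a : Fin k → ℕ) (B : ℕ), (∀ i, a i ≤ N) → B ≤ N → ∀ b : (Fin k → ℕ) → ℕ → ℂ, (∀ s n, ‖b s n‖ ≤ 1) →
      ∑ s ∈ (Fintype.piFinset fun _ : Fin k => Icc 1 L).filter (fun s => Function.Injective (fun i => a i + s i)),
        ∑ t ∈ Icc 1 H, ‖∑ n ∈ Icc 1 N, b s n * ((∏ i, ArithmeticFunction.vonMangoldt (n + (a i + s i)) : ℝ) : ℂ) *
          (-1 : ℂ) ^ (ArithmeticFunction.cardFactors (n + B + t))‖ ≤ ε * ((L : ℝ) ^ k * H * N) := by
  obtain ⟨η, hη, A, N₀, h⟩ := Pool.Agent.H526.FD.avg4 k hk ε hε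
  refine ⟨η, hη, A, N₀, fun N hN L H hL hH hL1 hH1 a B ha hB b hb => ?_⟩
  have key := h N hN L H hL hH hL1 hH1 a B ha hB b hb
  have e1 : (Fintype.piFinset fun _ : Fin k => Icc 1 L).filter (fun s => Function.Injective (fun i => a i + s i)) =
      Pool.Agent.H526.FD.Ta k L (fun i => (B : ℤ) - a i) := by
    ext s
    rw [mem_filter, Fintype.mem_piFinset, Pool.Agent.H526.FD.mem_Ta]
    simp only [mem_Icc]
    constructor
    · rintro ⟨h1, h2⟩
      refine ⟨h1, fun i j hij => h2 ?_⟩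
      simp only at hij ⊢
      omega
    · rintro ⟨h1, h2⟩
      refine ⟨h1, fun i j hij => h2 ?_⟩
      simp only at hij ⊢
      omega
  rw [e1]
  refine le_trans (le_of_eq ?_) key
  apply sum_congr rfl
  intro s _
  apply sum_congr rfl
  intro t _
  congr 1
  apply sum_congr rfl
  intro n hn
  rw [mem_Icc] at hn
  rw [Pool.Agent.E8helper16.SL.lz_nat (n + B + t) (by omega)]
  unfold Pool.Agent.H526.FC.LP
  rfl

/-- the integer `k` is a prime or has no prime factor `≤ N ^ θ` -/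
def PrimeOrRough (θ : ℝ) (N : ℕ) (k : ℤ) : Prop := k.toNat.Prime ∨ ∀ p : ℕ, p.Prime → (p : ℤ) ∣ k → (N : ℝ) ^ θ < p

open Classical in
/-- the coloured constellation of the primes and of the rough integers at distance at most `C log N` from `n` -/
noncomputable def conf {a : ℕ} (θ C : ℝ) (N : ℕ) (χ : ℤ → Fin a) (n : ℕ) : Finset (ℤ × Fin a) :=
  ((Icc (-(⌊C * Real.log N⌋₊ : ℤ)) ⌊C * Real.log N⌋₊).filter (fun t => PrimeOrRough θ N (n + t))).image (fun t => (t, χ (n + t)))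

open Classical in
/-- the colours with a mark -/
noncomputable def col {a : ℕ} (θ : ℝ) (N : ℕ) (χ : ℤ → Fin a) (m : ℤ) : Fin (a * 2) :=
  finProdFinEquiv (χ m, if PrimeOrRough θ N m then 1 else 0)

/-- the marked part of a coloured constellation at distance at most `L` -/
def proj {a : ℕ} (L : ℕ) (S : Finset (ℤ × Fin (a * 2))) : Finset (ℤ × Fin a) :=
  (S.filter (fun x : ℤ × Fin (a * 2) => (-(L : ℤ) ≤ x.1 ∧ x.1 ≤ (L : ℤ)) ∧ (finProdFinEquiv.symm x.2).2 = 1)).image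
    (fun x => (x.1, (finProdFinEquiv.symm x.2).1))

lemma proj_conf {a : ℕ} {θ θ' C : ℝ} {N n L' : ℕ} (χ : ℤ → Fin a) (h1 : θ' ≤ θ) (h2 : θ' ≤ 1 / 2) (hN : 1 ≤ N)
    (hL : ⌊C * Real.log N⌋₊ ≤ L') (hn : ⌊(N : ℝ) ^ (1 / 2 : ℝ)⌋₊ + L' < n) :
    proj ⌊C * Real.log N⌋₊ (Pool.Agent.H526.FC.cz1 L' ⌊(N : ℝ) ^ θ'⌋₊ (col θ N χ) (n : ℤ)) = conf θ C N χ n := by
  classical
  have hN1 : (1 : ℝ) ≤ N := by exact_mod_cast hN
  have h0 : (0 : ℝ) ≤ (N : ℝ) ^ (1 / 2 : ℝ) := Real.rpow_nonneg (Nat.cast_nonneg N) _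
  have h0' : (0 : ℝ) ≤ (N : ℝ) ^ θ' := Real.rpow_nonneg (Nat.cast_nonneg N) _
  have hcol : ∀ m : ℤ, (finProdFinEquiv.symm (col θ N χ m)).1 = χ m ∧ ((finProdFinEquiv.symm (col θ N χ m)).2 = 1 ↔ PrimeOrRough θ N m) := by
    intro m
    unfold col
    rw [Equiv.symm_apply_apply]
    refine ⟨rfl, ?_⟩
    show ((if PrimeOrRough θ N m then (1 : Fin 2) else 0) = 1) ↔ PrimeOrRough θ N m
    by_cases hm : PrimeOrRough θ N m
    · rw [if_pos hm]
      exact ⟨fun _ => hm, fun _ => rfl⟩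
    · rw [if_neg hm]
      exact ⟨fun h => absurd h (by decide), fun h => absurd h hm⟩
  have hrg : ∀ t : ℤ, -(L' : ℤ) ≤ t → PrimeOrRough θ N (n + t) → Pool.Agent.H526.FC.Rg ⌊(N : ℝ) ^ θ'⌋₊ ((n : ℤ) + t) := by
    intro t ht hr l hl hd
    rw [Pool.Agent.H373R2.T7.mem_pz] at hl
    have hl2 : (l : ℝ) ≤ (N : ℝ) ^ θ' := (Nat.le_floor_iff h0').1 hl.1
    rcases hr with hp | hr
    · have e : (((n + t : ℤ).toNat : ℕ) : ℤ) = n + t := Int.toNat_of_nonneg (by omega)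
      rw [← e, Int.natCast_dvd_natCast, Nat.prime_dvd_prime_iff_eq hl.2 hp] at hd
      have h3 : ⌊(N : ℝ) ^ (1 / 2 : ℝ)⌋₊ < l := by
        have : (l : ℤ) = n + t := by rw [hd]; exact e
        omega
      have h4 := (Nat.floor_lt h0).1 h3
      have h5 : (N : ℝ) ^ θ' ≤ (N : ℝ) ^ (1 / 2 : ℝ) := Real.rpow_le_rpow_of_exponent_le hN1 h2
      linarith
    · have h4 := hr l hl.2 hd
      have h5 : (N : ℝ) ^ θ' ≤ (N : ℝ) ^ θ := Real.rpow_le_rpow_of_exponent_le hN1 h1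
      linarith
  ext ⟨t, c⟩
  unfold proj conf Pool.Agent.H526.FC.cz1
  rw [mem_image, mem_image]
  constructor
  · rintro ⟨⟨t', c'⟩, hx, he⟩
    rw [mem_filter, mem_image] at hx
    obtain ⟨⟨t₁, ht, he1⟩, hc1, hc⟩ := hx
    rw [mem_filter] at ht
    rw [Prod.mk.injEq] at he1 he
    obtain ⟨e1, e2⟩ := he1
    obtain ⟨e3, e4⟩ := he
    subst e1
    subst e2
    refine ⟨t₁, ?_, ?_⟩
    · rw [mem_filter, mem_Icc]
      exact ⟨hc1, (hcol _).2.1 hc⟩
    · rw [Prod.mk.injEq]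
      exact ⟨e3, (hcol _).1.symm.trans e4⟩
  · rintro ⟨t', ht, he⟩
    rw [mem_filter, mem_Icc] at ht
    rw [Prod.mk.injEq] at he
    obtain ⟨e1, e2⟩ := he
    subst e1
    refine ⟨(t', col θ N χ (n + t')), ?_, ?_⟩
    · rw [mem_filter, mem_image]
      refine ⟨⟨t', ?_, rfl⟩, ht.1, (hcol _).2.2 ht.2⟩
      rw [mem_filter, mem_Icc]
      exact ⟨⟨by omega, by omega⟩, hrg t' (by omega) ht.2⟩
    · rw [Prod.mk.injEq]
      exact ⟨rfl, (hcol _).1.trans e2⟩

lemma numbers (C ε : ℝ) (hε : 0 < ε) : ∃ N₀ : ℕ, ∀ N : ℕ, N₀ ≤ N →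
    2 * ((⌊(N : ℝ) ^ (1 / 2 : ℝ)⌋₊ + ⌊C * Real.log N⌋₊ : ℕ) : ℝ) ≤ ε / 2 * N := by
  have hlog : ∀ᶠ N : ℕ in Filter.atTop, 8 / ε * (|C| * Real.log N) ≤ N := by
    have h2 := Pool.Agent.E8helper16.SL.log_pow_le (8 / ε * |C|) 1 1 one_pos
    filter_upwards [h2] with N g2
    rw [Real.rpow_one, pow_one] at g2
    refine le_trans (le_of_eq ?_) g2
    ring
  have hrt : ∀ᶠ N : ℕ in Filter.atTop, (8 / ε) * (N : ℝ) ^ (1 / 2 : ℝ) ≤ N := by
    have h1 : Filter.Tendsto (fun N : ℕ => (N : ℝ) ^ (1 / 2 : ℝ)) Filter.atTop Filter.atTop :=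
      (tendsto_rpow_atTop (by norm_num)).comp tendsto_natCast_atTop_atTop
    filter_upwards [h1.eventually_ge_atTop (8 / ε), Filter.eventually_ge_atTop 1] with N g1 g2
    have hN : (0 : ℝ) < N := by exact_mod_cast g2
    have h3 : (N : ℝ) = (N : ℝ) ^ (1 / 2 : ℝ) * (N : ℝ) ^ (1 / 2 : ℝ) := by
      rw [← Real.rpow_add hN]
      norm_num
    calc (8 / ε) * (N : ℝ) ^ (1 / 2 : ℝ) ≤ (N : ℝ) ^ (1 / 2 : ℝ) * (N : ℝ) ^ (1 / 2 : ℝ) :=
          mul_le_mul_of_nonneg_right g1 (Real.rpow_nonneg hN.le _)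
      _ = N := h3.symm
  have hall := hlog.and (hrt.and (Filter.eventually_ge_atTop 1))
  rw [Filter.eventually_atTop] at hall
  obtain ⟨N₂, hall⟩ := hall
  refine ⟨N₂, fun N hN => ?_⟩
  obtain ⟨g1, g2, g3⟩ := hall N hN
  have hN0 : (1 : ℝ) ≤ N := by exact_mod_cast g3
  have hl0 : 0 ≤ Real.log N := Real.log_nonneg hN0
  have b1 : (⌊(N : ℝ) ^ (1 / 2 : ℝ)⌋₊ : ℝ) ≤ ε / 8 * N := by
    refine (Nat.floor_le (Real.rpow_nonneg (by linarith) _)).trans ?_
    have := mul_le_mul_of_nonneg_left g2 (by positivity : (0 : ℝ) ≤ ε / 8)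
    refine le_trans (le_of_eq ?_) this
    field_simp
  have b2 : (⌊C * Real.log N⌋₊ : ℝ) ≤ ε / 8 * N := by
    have c1 : (⌊C * Real.log N⌋₊ : ℝ) ≤ |C| * Real.log N := by
      have : (⌊C * Real.log N⌋₊ : ℝ) ≤ (⌊|C| * Real.log N⌋₊ : ℝ) := by
        exact_mod_cast Nat.floor_mono (mul_le_mul_of_nonneg_right (le_abs_self C) hl0)
      exact this.trans (Nat.floor_le (mul_nonneg (abs_nonneg C) hl0))
    have c3 := mul_le_mul_of_nonneg_left g1 (by positivity : (0 : ℝ) ≤ ε / 8)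
    have c4 : ε / 8 * (8 / ε * (|C| * Real.log N)) = |C| * Real.log N := by field_simp
    rw [c4] at c3
    exact c1.trans c3
  push_cast
  linarith

/-- The Liouville function is asymptotically orthogonal to every function of the residue class of `n` modulo `q` and of the
coloured constellation of the primes and of the integers without prime factors `≤ N ^ θ` within `C log N` of `n`, times any
character `ω ^ n` and any factor `Ψ` whose total variation is at most `δ N`. -/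
theorem constellations (θ C ε : ℝ) (hθ : 0 < θ) (hε : 0 < ε) (a q : ℕ) (hq : 1 ≤ q) : ∃ δ : ℝ, 0 < δ ∧ ∃ N₀ : ℕ, ∀ N : ℕ, N₀ ≤ N →
    ∀ (χ : ℤ → Fin a) (Φ : ℕ → Finset (ℤ × Fin a) → ℂ) (ω : ℂ) (Ψ : ℕ → ℂ), (∀ r S, ‖Φ r S‖ ≤ 1) → ‖ω‖ = 1 → (∀ n, ‖Ψ n‖ ≤ 1) →
    ∑ n ∈ Icc 1 N, ‖Ψ (n + 1) - Ψ n‖ ≤ δ * N →
    ‖∑ n ∈ Icc 1 N, (-1 : ℂ) ^ (ArithmeticFunction.cardFactors n) * ω ^ n * Φ (n % q) (conf θ C N χ n) * Ψ n‖ ≤ ε * N := by
  classical
  obtain ⟨θ', hθ'd⟩ : ∃ θ' : ℝ, θ' = min θ (1 / 2) := ⟨_, rfl⟩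
  have hθ'0 : 0 < θ' := by rw [hθ'd]; exact lt_min hθ (by norm_num)
  have hθ1 : θ' ≤ θ := by rw [hθ'd]; exact min_le_left _ _
  have hθ2 : θ' ≤ 1 / 2 := by rw [hθ'd]; exact min_le_right _ _
  obtain ⟨C', hC'd⟩ : ∃ C' : ℝ, C' = max C 1 := ⟨_, rfl⟩
  have hC1 : 1 ≤ C' := by rw [hC'd]; exact le_max_right _ _
  have hCC : C ≤ C' := by rw [hC'd]; exact le_max_left _ _
  obtain ⟨δ, hδ, N₁, h⟩ := Pool.Agent.H526.FD.fin4 θ' C' (ε / 2) hθ'0 hC1 (by positivity) (a * 2) q hq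
  obtain ⟨N₂, hnum⟩ := numbers C' ε hε
  refine ⟨δ, hδ, N₁ + N₂ + 1, fun N hN χ Φ ω Ψ hΦ hω hΨ hTV => ?_⟩
  have hMb := hnum N (by omega)
  have hl0 : 0 ≤ Real.log N := Real.log_nonneg (by exact_mod_cast (by omega : 1 ≤ N))
  have hfl : ⌊C * Real.log N⌋₊ ≤ ⌊C' * Real.log N⌋₊ := Nat.floor_mono (mul_le_mul_of_nonneg_right hCC hl0)
  have h1 := h N (by omega) (col θ N χ) (fun r S => Φ r (proj ⌊C * Real.log N⌋₊ S)) ω Ψ (fun r S => hΦ r _) hω.le hΨ hTV
  obtain ⟨M, hM⟩ : ∃ M : ℕ, M = ⌊(N : ℝ) ^ (1 / 2 : ℝ)⌋₊ + ⌊C' * Real.log N⌋₊ := ⟨_, rfl⟩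
  rw [← hM] at hMb
  have hωn : ∀ n : ℕ, ‖ω ^ n‖ = 1 := fun n => by rw [norm_pow, hω, one_pow]
  have hdiff : ‖∑ n ∈ Icc 1 N, (-1 : ℂ) ^ (ArithmeticFunction.cardFactors n) * ω ^ n * Φ (n % q) (conf θ C N χ n) * Ψ n -
      ∑ n ∈ Icc 1 N, (Pool.Agent.H526.FC.Wf q ⌊C' * Real.log N⌋₊ ⌊(N : ℝ) ^ θ'⌋₊ (col θ N χ)
        (fun r S => Φ r (proj ⌊C * Real.log N⌋₊ S)) n * ω ^ n) * Ψ n‖ ≤ 2 * M := by
    rw [← sum_sub_distrib]
    refine (norm_sum_le _ _).trans ?_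
    have d1 : ∀ n ∈ Icc 1 N, ‖(-1 : ℂ) ^ (ArithmeticFunction.cardFactors n) * ω ^ n * Φ (n % q) (conf θ C N χ n) * Ψ n -
        (Pool.Agent.H526.FC.Wf q ⌊C' * Real.log N⌋₊ ⌊(N : ℝ) ^ θ'⌋₊ (col θ N χ)
          (fun r S => Φ r (proj ⌊C * Real.log N⌋₊ S)) n * ω ^ n) * Ψ n‖ ≤ if n ∈ Icc 1 M then 2 else 0 := by
      intro n hn
      rw [mem_Icc] at hn
      split_ifs with hnM
      · have d3 : ‖(-1 : ℂ) ^ (ArithmeticFunction.cardFactors n) * ω ^ n * Φ (n % q) (conf θ C N χ n) * Ψ n‖ ≤ 1 := by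
          rw [norm_mul, norm_mul, norm_mul, hωn, norm_pow, norm_neg, norm_one, one_pow, one_mul, one_mul]
          exact mul_le_one₀ (hΦ _ _) (norm_nonneg _) (hΨ n)
        have d4 : ‖(Pool.Agent.H526.FC.Wf q ⌊C' * Real.log N⌋₊ ⌊(N : ℝ) ^ θ'⌋₊ (col θ N χ)
            (fun r S => Φ r (proj ⌊C * Real.log N⌋₊ S)) n * ω ^ n) * Ψ n‖ ≤ 1 := by
          rw [norm_mul, norm_mul, hωn, mul_one]
          exact mul_le_one₀ (Pool.Agent.H526.FC.Wf_norm _ _ _ _ _ (fun r S => hΦ r _) n) (norm_nonneg _) (hΨ n)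
        refine (norm_sub_le _ _).trans ?_
        linarith
      · have d5 : M < n := by
          rw [mem_Icc] at hnM
          omega
        have d8 := proj_conf χ hθ1 hθ2 (by omega) hfl (by rw [← hM]; exact d5 : ⌊(N : ℝ) ^ (1 / 2 : ℝ)⌋₊ + ⌊C' * Real.log N⌋₊ < n)
        have d9 : Pool.Agent.H526.FC.Wf q ⌊C' * Real.log N⌋₊ ⌊(N : ℝ) ^ θ'⌋₊ (col θ N χ) (fun r S => Φ r (proj ⌊C * Real.log N⌋₊ S)) n =
            (-1 : ℂ) ^ (ArithmeticFunction.cardFactors n) * Φ (n % q) (conf θ C N χ n) := by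
          unfold Pool.Agent.H526.FC.Wf
          rw [Pool.Agent.E8helper16.SL.lz_nat n hn.1]
          show _ * Φ (n % q) (proj _ _) = _
          rw [d8]
        have d10 : (-1 : ℂ) ^ (ArithmeticFunction.cardFactors n) * ω ^ n * Φ (n % q) (conf θ C N χ n) * Ψ n =
            (-1 : ℂ) ^ (ArithmeticFunction.cardFactors n) * Φ (n % q) (conf θ C N χ n) * ω ^ n * Ψ n := by ring
        rw [d9, d10, sub_self, norm_zero]
    refine (sum_le_sum d1).trans ?_
    rw [← sum_filter, sum_const, nsmul_eq_mul]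
    have d6 : ((Icc 1 N).filter (fun n => n ∈ Icc 1 M)).card ≤ M := by
      refine (card_le_card (fun n hn => (mem_filter.1 hn).2)).trans ?_
      rw [Nat.card_Icc]
      omega
    have d7 : (((Icc 1 N).filter (fun n => n ∈ Icc 1 M)).card : ℝ) ≤ M := by exact_mod_cast d6
    linarith
  have h2 := norm_sub_norm_le (∑ n ∈ Icc 1 N, (-1 : ℂ) ^ (ArithmeticFunction.cardFactors n) * ω ^ n * Φ (n % q) (conf θ C N χ n) * Ψ n)
    (∑ n ∈ Icc 1 N, (Pool.Agent.H526.FC.Wf q ⌊C' * Real.log N⌋₊ ⌊(N : ℝ) ^ θ'⌋₊ (col θ N χ)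
      (fun r S => Φ r (proj ⌊C * Real.log N⌋₊ S)) n * ω ^ n) * Ψ n)
  linarith

open Classical in
/-- (1) Let `k ≥ 1` and `ε > 0`. There are `η > 0`, `A` and `N₀` such that for `N ≥ N₀`, `L, H ≤ N`, `L ≥ (log N) ^ (1 - η)`,
`H ≥ A (1 + (log N) / L) ^ A`, all `a 1, ..., a k, B ≤ N` and all weights `b s n` of modulus at most one:
`∑ s, ∑ t ≤ H, |∑ n ≤ N, b s n Λ(n + a 1 + s 1) ⋯ Λ(n + a k + s k) λ(n + B + t)| ≤ ε L ^ k H N`,
where `s` runs over the `k`-tuples in `[1, L]` for which the integers `a i + s i` are distinct.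
(2) For `θ, ε > 0`, `C`, `a`, `q ≥ 1` there are `δ > 0` and `N₀` such that for `N ≥ N₀`, all colours `χ`, all functions `Φ` and
`Ψ` bounded by one, all `|ω| = 1` and all `Ψ` whose total variation on `[1, N]` is at most `δ N`:
`|∑ n ≤ N, λ(n) ω ^ n Φ(n mod q, S(n)) Ψ(n)| ≤ ε N` with the coloured constellation `S(n) = conf θ C N χ n`. -/
theorem result :
    (∀ (k : ℕ) (_ : 1 ≤ k) (ε : ℝ) (_ : 0 < ε), ∃ η : ℝ, 0 < η ∧ ∃ A N₀ : ℕ, ∀ N : ℕ, N₀ ≤ N →
      ∀ L H : ℕ, L ≤ N → H ≤ N → Real.log N ^ (1 - η) ≤ L → (A : ℝ) * (1 + Real.log N / L) ^ A ≤ H →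
        ∀ (a : Fin k → ℕ) (B : ℕ), (∀ i, a i ≤ N) → B ≤ N → ∀ b : (Fin k → ℕ) → ℕ → ℂ, (∀ s n, ‖b s n‖ ≤ 1) →
        ∑ s ∈ (Fintype.piFinset fun _ : Fin k => Icc 1 L).filter (fun s => Function.Injective (fun i => a i + s i)),
          ∑ t ∈ Icc 1 H, ‖∑ n ∈ Icc 1 N, b s n * ((∏ i, ArithmeticFunction.vonMangoldt (n + (a i + s i)) : ℝ) : ℂ) *
            (-1 : ℂ) ^ (ArithmeticFunction.cardFactors (n + B + t))‖ ≤ ε * ((L : ℝ) ^ k * H * N)) ∧
    (∀ (θ C ε : ℝ) (_ : 0 < θ) (_ : 0 < ε) (a q : ℕ) (_ : 1 ≤ q), ∃ δ : ℝ, 0 < δ ∧ ∃ N₀ : ℕ, ∀ N : ℕ, N₀ ≤ N →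
      ∀ (χ : ℤ → Fin a) (Φ : ℕ → Finset (ℤ × Fin a) → ℂ) (ω : ℂ) (Ψ : ℕ → ℂ), (∀ r S, ‖Φ r S‖ ≤ 1) → ‖ω‖ = 1 → (∀ n, ‖Ψ n‖ ≤ 1) →
      ∑ n ∈ Icc 1 N, ‖Ψ (n + 1) - Ψ n‖ ≤ δ * N →
      ‖∑ n ∈ Icc 1 N, (-1 : ℂ) ^ (ArithmeticFunction.cardFactors n) * ω ^ n * Φ (n % q) (conf θ C N χ n) * Ψ n‖ ≤ ε * N) :=
  ⟨fun k hk ε hε => allShifts k hk ε hε, fun θ C ε hθ hε a q hq => constellations θ C ε hθ hε a q hq⟩

end Pool.Agent.Results.MP_e6fa8b_nt.MeanGapScale
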