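import Mathlib
import Pool.Agent.H251.SP.VM
import Pool.Agent.H251.SP.PSL

/-!
# `(k, ℓ) = (1, 1)` and `(0, ℓ)` over `F_q[X]`, `q` even

`K` is a fixed finite field with an even number `q` of elements.  The correlation of the von
Mangoldt function with the Liouville function is `o(1)`, uniformly in the two different shifts of
degree less than `n` and in the residue class; the correlations of the Liouville function alone, of
every order, have a power saving, uniformly in the shifts, in the moduli up to `q ^ (c n)` and in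
the residue classes.

Authors of the parts (all in `Pool/Agent/H251/SP`): helper328, helper253 (windows), helper289
(typical `f`), helper628 (large sieve, Buchstab identity, scaling), helper229, helper800, helper734
(second moments), helper870 (type II sums), helper354 (second moment for `k` forms, Chowla with a
power saving, Möbius in residue classes), helper588, helper345, helper974 (type I sums), helper685
(identity for the primes), helper166 (exceptional `f`), helper177 (assembly), helper287 (Liouville
function); product formula and local bounds: helper985, helper604 and their coauthors; statements,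
proof on paper: helper251.
-/

namespace Pool.Agent.Results.MP_e6fa8b_nt.PrimesLiouvilleEvenChar

open Polynomial

open Classical in
/-- The Liouville function of `K[X]`: `(-1) ^ k` if `F` is a nonzero constant times a product of `k`
monic irreducible polynomials, counted with multiplicity, and `0` for `F = 0`. -/
noncomputable def liouville {K : Type} [Field K] (F : K[X]) : ℤ :=
  if F = 0 then 0 else (-1) ^ Multiset.card (UniqueFactorizationMonoid.factors F)

open Classical in
/-- The von Mangoldt function of `K[X]`: `deg P` if `f = P ^ k` with `k ≥ 1` and `P` monic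
irreducible, and `0` for all other `f`. -/
noncomputable def vonMangoldt {K : Type} [Field K] (f : K[X]) : ℕ :=
  if h : ∃ P : K[X], P.Monic ∧ Irreducible P ∧ ∃ k : ℕ, 1 ≤ k ∧ f = P ^ k then
    h.choose.natDegree else 0

/-- The monic polynomials `f` of degree `n` with `f ≡ r (mod Q)`. -/
def monics {K : Type} [Field K] (n : ℕ) (Q r : K[X]) : Set K[X] :=
  {f | f.Monic ∧ f.natDegree = n ∧ Q ∣ f - r}

/-- shifting the variable -/
theorem shift {K : Type} [Field K] [Fintype K] (n : ℕ) (Q r h h' : K[X]) (hh : h.natDegree < n)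
    (a : K[X] → ℝ) :
    ∑ᶠ f ∈ monics n Q r, (vonMangoldt (f + h) : ℝ) * a (f + h') =
      ∑ᶠ f ∈ monics n Q (r + h), (vonMangoldt f : ℝ) * a (f + (h' - h)) := by
  refine finsum_mem_eq_of_bijOn (fun f => f + h) ⟨?_, ?_, ?_⟩ ?_
  · intro f hf
    obtain ⟨h1, h2, h3⟩ := hf
    have hdeg : h.degree < f.degree := by
      rw [degree_eq_natDegree h1.ne_zero, h2]
      exact degree_le_natDegree.trans_lt (by exact_mod_cast hh)
    refine ⟨h1.add_of_left hdeg, ?_, ?_⟩
    · rw [natDegree_add_eq_left_of_degree_lt hdeg, h2]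
    · rw [add_sub_add_right_eq_sub]
      exact h3
  · intro f _ g _ hfg
    exact add_right_cancel hfg
  · intro f hf
    obtain ⟨h1, h2, h3⟩ := hf
    have hdeg : (-h).degree < f.degree := by
      rw [degree_neg, degree_eq_natDegree h1.ne_zero, h2]
      exact degree_le_natDegree.trans_lt (by exact_mod_cast hh)
    refine ⟨f - h, ⟨?_, ?_, ?_⟩, sub_add_cancel f h⟩
    · rw [sub_eq_add_neg]
      exact h1.add_of_left hdeg
    · rw [sub_eq_add_neg, natDegree_add_eq_left_of_degree_lt hdeg, h2]
    · have : f - h - r = f - (r + h) := by ring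
      rw [this]
      exact h3
  · intro f _
    have : f + h + (h' - h) = f + h' := by ring
    rw [this]

/-- **Joint correlations of the von Mangoldt and the Liouville function over `F_q[X]`, `q` even.**
(1) `(k, ℓ) = (1, 1)`: for `Q ≠ 0` and `ε > 0` and all large `n`, the sum of `Λ(f + h) λ(f + h')`
over the monic `f ≡ r (mod Q)` of degree `n` is at most `ε q ^ n`, uniformly in the different
shifts `h`, `h'` of degree less than `n` and in `r`.
(2) `k = 0`, every `ℓ ≥ 1`: with some `c > 0` and all large `n`, the sum of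
`λ(f + h 1) ⋯ λ(f + h ℓ)` over the monic `f ≡ r (mod Q)` of degree `n` is at most
`q ^ ((1 - c) n)`, uniformly in the distinct shifts of degree less than `n`, in all `Q ≠ 0` of degree
at most `c n` and in `r`. -/
theorem result (K : Type) [Field K] [Fintype K] (hK : Even (Fintype.card K)) :
    (∀ (Q : K[X]) (ε : ℝ), Q ≠ 0 → 0 < ε → ∃ N : ℕ, ∀ n : ℕ, N ≤ n → ∀ h h' r : K[X],
      h ≠ h' → h.natDegree < n → h'.natDegree < n →
      |∑ᶠ f ∈ monics n Q r, (vonMangoldt (f + h) : ℝ) * (liouville (f + h') : ℝ)| ≤
        ε * (Fintype.card K : ℝ) ^ n) ∧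
    (∀ l : ℕ, 1 ≤ l → ∃ c : ℝ, 0 < c ∧ ∃ N : ℕ, ∀ n : ℕ, N ≤ n →
      ∀ (h : Fin l → K[X]) (Q r : K[X]), Function.Injective h → (∀ i, (h i).natDegree < n) →
      Q ≠ 0 → (Q.natDegree : ℝ) ≤ c * n →
      |∑ᶠ f ∈ monics n Q r, ∏ i, (liouville (f + h i) : ℝ)| ≤
        (Fintype.card K : ℝ) ^ ((1 - c) * n)) := by
  classical
  have := Pool.Agent.H251.SP.charTwo hK
  have hlio : ∀ F : K[X], liouville F = Pool.Agent.H524.Cw.lio F := by
    intro F
    unfold liouville Pool.Agent.H524.Cw.lio
    split_ifs <;> rfl
  have hmonics : ∀ (Q Q' : K[X]), (∀ x : K[X], Q ∣ x ↔ Q' ∣ x) → ∀ (n : ℕ) (r : K[X]),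
      monics n Q r = ↑((Pool.Agent.H694.Typ.Mn K n).filter (fun p => Q' ∣ p - r)) := by
    intro Q Q' hdvd n r
    rw [← Pool.Agent.H251.SP.VM.mn_set]
    ext p
    exact and_congr_right fun _ => and_congr_right fun _ => hdvd _
  refine ⟨fun Q ε hQ hε => ?_, fun l hl => ?_⟩
  · obtain ⟨Q', hQ', -, hdvd⟩ := Pool.Agent.H251.SP.VM.monic_mod hQ
    obtain ⟨N, hN⟩ := Pool.Agent.H251.SP.VM.of_primes
      (fun F : K[X] => (Pool.Agent.H524.Cw.lio F : ℝ))
      (fun F => Pool.Agent.H524.Cw.abs_lio F) Q' (fun ε' hε' => by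
        obtain ⟨N, hN⟩ := Pool.Agent.H251.SP.s_lam K Q' ε' hQ' hε'
        refine ⟨N, fun n hn h r hh hd => ?_⟩
        have h1 := hN n hn h r hh hd
        have h2 : ∑ p ∈ (Pool.Agent.H694.Typ.Irn K n).filter (fun p => Q' ∣ p - r),
            (Pool.Agent.H524.Cw.lio (p + h) : ℝ) =
            ∑ p ∈ (Pool.Agent.H694.Typ.Irn K n).filter (fun p => Q' ∣ p - r),
              (Pool.Agent.H251.SP.lam (p + h) : ℝ) := by
          refine Finset.sum_congr rfl fun p hp => ?_
          have hp' := Pool.Agent.H694.Typ.mem_Irn.1 (Finset.mem_filter.1 hp).1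
          have hne : p + h ≠ 0 := by
            intro h0
            have h3 : p = -h := eq_neg_of_add_eq_zero_left h0
            have h4 : p.natDegree = h.natDegree := by rw [h3, natDegree_neg]
            omega
          rw [Pool.Agent.H524.Cw.lio_ne hne]
          rfl
        rw [h2]
        exact h1) ε hε
    refine ⟨N, fun n hn h h' r hne hd hd' => ?_⟩
    have hd2 : (h' - h).natDegree < n :=
      (natDegree_sub_le _ _).trans_lt (max_lt hd' hd)
    have h1 := hN n hn (h' - h) (r + h) (sub_ne_zero.2 (Ne.symm hne)) hd2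
    have h2 := shift n Q r h h' hd (fun F => (liouville F : ℝ))
    rw [h2, hmonics Q Q' hdvd, finsum_mem_coe_finset]
    simp only [hlio]
    exact h1
  · obtain ⟨c, hc, N, hN⟩ := Pool.Agent.H251.SP.psl Pool.Agent.H251.SP.s_ps K l hl
    refine ⟨c, hc, N, fun n hn h Q r hinj hd hQ hQd => ?_⟩
    obtain ⟨Q', hQ', hQ'd, hdvd⟩ := Pool.Agent.H251.SP.VM.monic_mod hQ
    have h1 := hN n hn h Q' r hinj hd hQ' (by rw [hQ'd]; exact hQd)
    rw [hmonics Q Q' hdvd, finsum_mem_coe_finset]
    simp only [hlio]
    have h2 : (1 - c) * (n : ℝ) = (n : ℝ) - c * n := by ring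
    rw [h2]
    exact h1

end Pool.Agent.Results.MP_e6fa8b_nt.PrimesLiouvilleEvenChar
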